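import Pool.Agent.Lib.Helper20.SecantAvoid

/-!
# The spectrum of `k`-avoiding point sets of `PG(2, q)`

Own definitions for the problem MP_8c9d81_co, and the transfer of the theorem of
`Pool/Agent/Lib/Helper20/SecantAvoid.lean` to them (finite fields in every universe).
-/

set_option autoImplicit false

namespace Pool.Agent.Lib.H66I.SecantPlane

universe u v

/-- The points of `PG(2, q)`, `F` a field with `q` elements: the one-dimensional subspaces
of `F ^ 3`. -/
abbrev Point (F : Type u) [Field F] : Type u := Projectivization F (Fin 3 → F)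

/-- `L` is a line of `PG(2, q)`: the set of all points contained in some two-dimensional
subspace of `F ^ 3`. -/
def IsLine (F : Type u) [Field F] (L : Set (Point F)) : Prop :=
  ∃ W : Submodule F (Fin 3 → F), Module.finrank F W = 2 ∧ L = {p | p.submodule ≤ W}

/-- `S` is `k`-avoiding: no line meets `S` in exactly `k` points. -/
def Avoiding (F : Type u) [Field F] (k : ℕ) (S : Set (Point F)) : Prop :=
  ∀ L : Set (Point F), IsLine F L → (L ∩ S).ncard ≠ k

/-- The spectrum `Sp(k, q)`: the sizes of all `k`-avoiding point sets. -/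
def spectrum (F : Type u) [Field F] (k : ℕ) : Set ℕ :=
  {m | ∃ S : Set (Point F), Avoiding F k S ∧ S.ncard = m}

section transfer

variable {F : Type u} {K : Type v} [Field F] [Field K] [Finite F] [Finite K]

/-- The coordinatewise map along an isomorphism of fields. -/
def coord (e : K ≃+* F) : (Fin 3 → K) →ₛₗ[(e : K →+* F)] (Fin 3 → F) where
  toFun v i := e (v i)
  map_add' v w := by ext i; simp
  map_smul' a v := by ext i; simp

omit [Finite F] [Finite K] in
lemma coord_inj (e : K ≃+* F) : Function.Injective (coord e) := by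
  intro v w h
  ext i
  have := congrFun h i
  exact e.injective this

omit [Finite F] [Finite K] in
lemma coord_surj (e : K ≃+* F) : Function.Surjective (coord e) := by
  intro v
  refine ⟨fun i => e.symm (v i), ?_⟩
  ext i
  simp [coord]

omit [Finite K] in
/-- The two-dimensional subspaces correspond. -/
lemma finrank_comap (e : K ≃+* F) (W : Submodule F (Fin 3 → F)) (hW : Module.finrank F W = 2) :
    Module.finrank K (W.comap (coord e)) = 2 := by
  have h1 : Nat.card W = Nat.card F ^ 2 := by
    rw [Module.natCard_eq_pow_finrank (K := F) (V := W), hW]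
  have h2 : Nat.card (W.comap (coord e)) = Nat.card K ^ Module.finrank K (W.comap (coord e)) :=
    Module.natCard_eq_pow_finrank (K := K) (V := W.comap (coord e))
  have h3 : Nat.card (W.comap (coord e)) = Nat.card W := by
    refine Nat.card_congr (Equiv.ofBijective (fun x => ⟨coord e x.1, x.2⟩) ⟨?_, ?_⟩)
    · intro x y hxy
      have := congrArg Subtype.val hxy
      exact Subtype.ext (coord_inj e this)
    · rintro ⟨y, hy⟩
      obtain ⟨x, rfl⟩ := coord_surj e y
      exact ⟨⟨x, hy⟩, rfl⟩
  have h4 : Nat.card K = Nat.card F := Nat.card_congr e.toEquiv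
  rw [h3, h1, h4] at h2
  have h5 : 1 < Nat.card F := Finite.one_lt_card
  exact (Nat.pow_right_injective h5 h2).symm

omit [Finite F] [Finite K] in
lemma map_inj (e : K ≃+* F) :
    Function.Injective (Projectivization.map (coord e) (coord_inj e)) := by
  intro u v h
  induction u using Projectivization.ind with
  | h u hu =>
    induction v using Projectivization.ind with
    | h v hv =>
      simp only [Projectivization.map_mk, Projectivization.mk_eq_mk_iff'] at h ⊢
      obtain ⟨a, ha⟩ := h
      refine ⟨e.symm a, ?_⟩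
      apply coord_inj e
      rw [(coord e).map_smulₛₗ, ← ha]
      simp

omit [Finite F] [Finite K] in
lemma mem_line (e : K ≃+* F) (W : Submodule F (Fin 3 → F)) (p : Point K) :
    (Projectivization.map (coord e) (coord_inj e) p).submodule ≤ W ↔
      p.submodule ≤ W.comap (coord e) := by
  induction p using Projectivization.ind with
  | h v hv =>
    rw [Projectivization.map_mk, Projectivization.submodule_mk, Projectivization.submodule_mk,
      Submodule.span_singleton_le_iff_mem, Submodule.span_singleton_le_iff_mem,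
      Submodule.mem_comap]

omit [Finite K] in
lemma spectrum_transfer (e : K ≃+* F) {k m : ℕ} (h : m ∈ spectrum K k) : m ∈ spectrum F k := by
  obtain ⟨S, hS, hm⟩ := h
  refine ⟨Projectivization.map (coord e) (coord_inj e) '' S, ?_, ?_⟩
  · rintro L ⟨W, hW, rfl⟩
    have h1 := hS _ ⟨W.comap (coord e), finrank_comap e W hW, rfl⟩
    have h2 : {p : Point F | p.submodule ≤ W} ∩
        Projectivization.map (coord e) (coord_inj e) '' S =
        Projectivization.map (coord e) (coord_inj e) ''
          ({p : Point K | p.submodule ≤ W.comap (coord e)} ∩ S) := by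
      ext p
      constructor
      · rintro ⟨hp, q, hq, rfl⟩
        exact ⟨q, ⟨(mem_line e W q).1 hp, hq⟩, rfl⟩
      · rintro ⟨q, ⟨hq1, hq2⟩, rfl⟩
        exact ⟨(mem_line e W q).2 hq1, q, hq2, rfl⟩
    rw [h2, Set.ncard_image_of_injective _ (map_inj e)]
    exact h1
  · rw [Set.ncard_image_of_injective _ (map_inj e), hm]

end transfer

/-- The whole spectrum, for the fields in the lowest universe. -/
lemma spectrum_type0 (K : Type) [Field K] [Finite K] {k m : ℕ}
    (hk1 : 36 * (Nat.sqrt (Nat.card K) + 1) + 6 ≤ k)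
    (hk2 : k + 36 * (Nat.sqrt (Nat.card K) + 1) + 5 ≤ Nat.card K)
    (hm : m ≤ Nat.card K ^ 2 + Nat.card K + 1) : m ∈ spectrum K k := by
  classical
  have := Fintype.ofFinite K
  rw [Nat.card_eq_fintype_card] at hk1 hk2 hm
  obtain ⟨S, hS, h⟩ := Pool.Agent.Lib.Helper20.SecantAvoid.of_good (F := K) k m
    (Pool.Agent.Lib.Helper20.SecantAvoid.good_all (F := K)
      (s := Nat.sqrt (Fintype.card K) + 1) (Nat.lt_succ_sqrt _) hk1 hk2 hm)
  refine ⟨S, ?_, hS⟩
  rintro L ⟨W, hW, rfl⟩
  rw [Set.inter_comm]
  exact h W hW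

/-- The number of points of the plane. -/
lemma card_point (F : Type u) [Field F] [Finite F] :
    Nat.card (Point F) = Nat.card F ^ 2 + Nat.card F + 1 := by
  rw [Projectivization.card_of_finrank F (Fin 3 → F) (n := 3) (by simp)]
  simp only [Finset.sum_range_succ, Finset.sum_range_zero]
  ring

/-- The spectrum is everything, for every finite field. -/
theorem spectrum_eq (F : Type u) [Field F] [Finite F] (k : ℕ)
    (hk1 : 36 * (Nat.sqrt (Nat.card F) + 1) + 6 ≤ k)
    (hk2 : k + 36 * (Nat.sqrt (Nat.card F) + 1) + 5 ≤ Nat.card F) :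
    spectrum F k = Set.Icc 0 (Nat.card F ^ 2 + Nat.card F + 1) := by
  ext m
  constructor
  · rintro ⟨S, -, rfl⟩
    refine ⟨Nat.zero_le _, ?_⟩
    rw [← card_point F]
    exact Set.ncard_le_card S
  · rintro ⟨-, hm⟩
    have e : Shrink.{0} F ≃+* F := (equivShrink.{0} F).symm.ringEquiv
    have hc : Nat.card (Shrink.{0} F) = Nat.card F := Nat.card_congr e.toEquiv
    have hfin : Finite (Shrink.{0} F) := Finite.of_equiv F e.toEquiv.symm
    exact spectrum_transfer e (spectrum_type0 (Shrink.{0} F) (hc ▸ hk1) (hc ▸ hk2) (hc ▸ hm))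

/-- The same with the condition of the problem, `c = 37`. -/
theorem spectrum_eq_real (F : Type u) [Field F] [Finite F] (k : ℕ)
    (hk1 : 37 * Real.sqrt (Nat.card F : ℝ) < (k : ℝ))
    (hk2 : (k : ℝ) < (Nat.card F : ℝ) + 1 - 37 * Real.sqrt (Nat.card F : ℝ)) :
    spectrum F k = Set.Icc 0 (Nat.card F ^ 2 + Nat.card F + 1) := by
  have h1 : (Nat.sqrt (Nat.card F) : ℝ) ≤ Real.sqrt (Nat.card F : ℝ) := Real.nat_sqrt_le_real_sqrt
  have h2 : Real.sqrt (Nat.card F : ℝ) ^ 2 = (Nat.card F : ℝ) :=
    Real.sq_sqrt (Nat.cast_nonneg _)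
  have h3 : (1 : ℝ) ≤ Real.sqrt (Nat.card F : ℝ) := by
    rw [Real.one_le_sqrt]
    exact_mod_cast Nat.card_pos
  have h4 : (73 : ℝ) ≤ Real.sqrt (Nat.card F : ℝ) := by
    by_contra h
    push Not at h
    nlinarith [mul_nonneg (sub_nonneg.2 h3) (sub_nonneg.2 h.le)]
  apply spectrum_eq
  · have : ((36 * (Nat.sqrt (Nat.card F) + 1) + 6 : ℕ) : ℝ) ≤ (k : ℝ) := by
      push_cast
      linarith
    exact_mod_cast this
  · have : ((k + 36 * (Nat.sqrt (Nat.card F) + 1) + 5 : ℕ) : ℝ) ≤ (Nat.card F : ℝ) := by
      push_cast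
      linarith
    exact_mod_cast this

end Pool.Agent.Lib.H66I.SecantPlane
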